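import Pool.Agent.R719.DD.Elim
import Pool.Agent.Y75.Th.Init
import Pool.Agent.Y75.Th.Piv

set_option autoImplicit false

/-! Invertible matrices over integral group rings which are weakly diagonally dominant by rows or by
columns: their classes in the Whitehead group vanish, and the constant of dominance is sharp. -/

namespace Pool.Agent.R719.Old.DiagonalDominance

open Matrix

section defs

variable {Γ : Type} [Group Γ]

/-- the adjoint (conjugate transpose) of a matrix over `ℤΓ`, for the involution `g ↦ g⁻¹` -/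
noncomputable def adjoint {κ μ : Type} (A : Matrix κ μ (MonoidAlgebra ℤ Γ)) :
    Matrix μ κ (MonoidAlgebra ℤ Γ) :=
  Matrix.of fun j i => MonoidAlgebra.mapDomain (fun g => g⁻¹) (A i j)

/-- the sum of the absolute values of the coefficients -/
def norm1 (x : MonoidAlgebra ℤ Γ) : ℕ := ∑ g ∈ x.coeff.support, (x.coeff g).natAbs

/-- Diagonal dominance by rows with the factor `c`: in each row, the sum of the absolute values of
all coefficients of all entries, except the coefficient of `1` in the diagonal entry, is at most `c`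
times this coefficient. -/
def Dominant {κ : Type} [Fintype κ] (c : ℝ) (S : Matrix κ κ (MonoidAlgebra ℤ Γ)) : Prop :=
  ∀ i, (∑ j, (norm1 (S i j) : ℝ)) - |((S i i).coeff 1 : ℝ)| ≤ c * ((S i i).coeff 1 : ℝ)

/-- One coefficient dominates each row: for some permutation `σ`, the entry in row `i` and column
`σ i` has a coefficient whose absolute value is at least the sum of the absolute values of all other
coefficients of the entries in row `i`. -/
def DominantUpToMonomial {κ : Type} [Fintype κ] (S : Matrix κ κ (MonoidAlgebra ℤ Γ)) : Prop :=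
  ∃ σ : κ ≃ κ, ∀ i, ∃ g : Γ, (∑ j, (norm1 (S i j) : ℤ)) ≤ 2 * |(S i (σ i)).coeff g|

/-- the square matrix `x` over `ℤΓ`, stabilised by an identity block, is a product of commutators of
invertible matrices -/
def ZeroInK1 {κ : Type} [Fintype κ] [DecidableEq κ]
    (x : Matrix κ κ (MonoidAlgebra ℤ Γ)) : Prop :=
  ∃ (m : ℕ) (C : (Matrix (κ ⊕ Fin m) (κ ⊕ Fin m) (MonoidAlgebra ℤ Γ))ˣ),
    C ∈ commutator (Matrix (κ ⊕ Fin m) (κ ⊕ Fin m) (MonoidAlgebra ℤ Γ))ˣ ∧
    Matrix.fromBlocks x 0 0 (1 : Matrix (Fin m) (Fin m) (MonoidAlgebra ℤ Γ)) = ↑C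

/-- the square matrix `x` over `ℤΓ`, stabilised by an identity block, is `± g` on one diagonal entry
times a product of commutators of invertible matrices (the form of the frozen statement) -/
def ZeroInWh {κ : Type} [Fintype κ] [DecidableEq κ]
    (x : Matrix κ κ (MonoidAlgebra ℤ Γ)) : Prop :=
  ∃ (m : ℕ) (g : Γ) (ε : ℤˣ)
    (C : (Matrix (κ ⊕ Fin (m + 1)) (κ ⊕ Fin (m + 1)) (MonoidAlgebra ℤ Γ))ˣ),
    C ∈ commutator (Matrix (κ ⊕ Fin (m + 1)) (κ ⊕ Fin (m + 1)) (MonoidAlgebra ℤ Γ))ˣ ∧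
    Matrix.fromBlocks x 0 0 (1 : Matrix (Fin (m + 1)) (Fin (m + 1)) (MonoidAlgebra ℤ Γ)) =
      Matrix.diagonal (fun i : κ ⊕ Fin (m + 1) =>
          if i = Sum.inr (0 : Fin (m + 1)) then
            (MonoidAlgebra.single g ((ε : ℤ)) : MonoidAlgebra ℤ Γ) else 1) *
        (↑C : Matrix (κ ⊕ Fin (m + 1)) (κ ⊕ Fin (m + 1)) (MonoidAlgebra ℤ Γ))

end defs

section aux

open TH57.Thr TH6.LF TH6.CX Pool.Agent.Y75.Th Pool.Agent.Y35.KC.TTm Pool.Agent.R719.DD

variable {Γ : Type} [Group Γ] {κ : Type} [Fintype κ] [DecidableEq κ]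

omit [DecidableEq κ] in
theorem dd_of_dominant {S : Matrix κ κ (MonoidAlgebra ℤ Γ)} (h : Dominant 1 S) : DDom S := by
  intro i
  have h1 := h i
  have h2 : (0 : ℝ) ≤ ∑ j, (norm1 (S i j) : ℝ) - |((S i i).coeff 1 : ℝ)| := by
    have h3 := coeff_le_l1 (S i i) 1
    have h4 : (|((S i i).coeff 1 : ℝ)|) ≤ (l1 (S i i) : ℝ) := by
      rw [← Int.cast_abs]; exact_mod_cast h3
    have h5 := Finset.single_le_sum (f := fun j => (norm1 (S i j) : ℝ))
      (fun j _ => Nat.cast_nonneg _) (Finset.mem_univ i)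
    have h6 : (l1 (S i i) : ℝ) = (norm1 (S i i) : ℝ) := rfl
    have h7 : (norm1 (S i i) : ℝ) ≤ ∑ j, (norm1 (S i j) : ℝ) := h5
    linarith
  have h3 : (0 : ℝ) ≤ ((S i i).coeff 1 : ℝ) := by linarith
  rw [abs_of_nonneg h3, one_mul] at h1
  have h4 : (∑ j, (norm1 (S i j) : ℝ)) ≤ 2 * ((S i i).coeff 1 : ℝ) := by linarith
  have h5 : (∑ j, ((l1 (S i j) : ℤ) : ℝ)) ≤ 2 * ((S i i).coeff 1 : ℝ) := by
    refine le_trans (le_of_eq ?_) h4
    refine Finset.sum_congr rfl fun j _ => ?_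
    have : norm1 (S i j) = l1 (S i j) := rfl
    rw [this]; push_cast; rfl
  exact_mod_cast h5

/-! ### `K₁` -/

theorem HH_bot : HH (⊥ : Subgroup (MonoidAlgebra ℤ Γ)ˣ) κ = commutator _ := by
  refine le_antisymm (sup_le le_rfl ?_) (commutator_le_HH _)
  rw [Subgroup.closure_le]
  rintro _ ⟨i, u, hu, rfl⟩
  rw [Subgroup.mem_bot.1 hu, map_one]
  exact one_mem _

theorem k1_of_TT {A : (Matrix κ κ (MonoidAlgebra ℤ Γ))ˣ}
    (h : TT (⊥ : Subgroup (MonoidAlgebra ℤ Γ)ˣ) A) : ZeroInK1 A.val := by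
  obtain ⟨μ, i1, i2, h1⟩ := h
  let e : Fin (Fintype.card μ) ≃ μ := (Fintype.equivFin μ).symm
  have h3 := re_mem (⊥ : Subgroup (MonoidAlgebra ℤ Γ)ˣ) (Equiv.sumCongr (Equiv.refl κ) e) _ h1
  rw [HH_bot] at h3
  refine ⟨Fintype.card μ, _, h3, ?_⟩
  ext (i | i) (j | j) <;> simp [stm, re, Matrix.one_apply]

theorem TT_of_k1 {A : (Matrix κ κ (MonoidAlgebra ℤ Γ))ˣ} (h : ZeroInK1 A.val) :
    TT (⊥ : Subgroup (MonoidAlgebra ℤ Γ)ˣ) A := by
  obtain ⟨m, C, hC, h1⟩ := h
  refine ⟨Fin m, inferInstance, inferInstance, ?_⟩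
  have h2 : Units.map (stm (Fin m)) A = C := Units.ext h1
  rw [h2]
  exact commutator_le_HH _ hC

/-- the adjoint inverse -/
theorem TT_adU_bot (x : (Matrix κ κ (MonoidAlgebra ℤ Γ))ˣ)
    (hx : TT (⊥ : Subgroup (MonoidAlgebra ℤ Γ)ˣ) x) :
    TT (⊥ : Subgroup (MonoidAlgebra ℤ Γ)ˣ) (adU κ x) := by
  obtain ⟨μ, i1, i2, h1⟩ := hx
  refine ⟨μ, i1, i2, ?_⟩
  have h2 := map_HH_le (⊥ : Subgroup (MonoidAlgebra ℤ Γ)ˣ) ⊥ (adU (κ ⊕ μ)) (fun i u hu => by
    rw [Subgroup.mem_bot.1 hu, map_one, map_one]; exact one_mem _) _ h1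
  convert h2 using 1
  apply Units.ext
  rw [adU_val, ← map_inv]
  change fromBlocks (adU κ x : Matrix κ κ (MonoidAlgebra ℤ Γ)) 0 0 1
    = adj (fromBlocks (↑x⁻¹ : Matrix κ κ (MonoidAlgebra ℤ Γ)) 0 0 1)
  rw [adj_fromBlocks, adj_zero, adj_zero, adj_one, adU_val]

/-- the adjoint as a unit -/
noncomputable def adx (A : (Matrix κ κ (MonoidAlgebra ℤ Γ))ˣ) :
    (Matrix κ κ (MonoidAlgebra ℤ Γ))ˣ :=
  ⟨adj A.val, adj A⁻¹.val, by rw [← adj_mul, A.inv_mul, adj_one],
    by rw [← adj_mul, A.mul_inv, adj_one]⟩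

theorem adU_adx (A : (Matrix κ κ (MonoidAlgebra ℤ Γ))ˣ) : adU κ (adx A)⁻¹ = A := by
  apply Units.ext
  rw [adU_val, inv_inv]
  exact adj_adj _

/-! ### the Whitehead group -/

theorem zero_of_TT {A : (Matrix κ κ (MonoidAlgebra ℤ Γ))ˣ} (h : TT (TU Γ) A) : ZeroInWh A.val :=
  TT_explicit A h

theorem TT_of_zero {A : (Matrix κ κ (MonoidAlgebra ℤ Γ))ˣ} (h : ZeroInWh A.val) :
    TT (TU Γ) A := by
  obtain ⟨m, g, ε, C, hC, h1⟩ := h
  refine ⟨Fin (m + 1), inferInstance, inferInstance, ?_⟩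
  let u : (MonoidAlgebra ℤ Γ)ˣ :=
    { val := MonoidAlgebra.single g (ε : ℤ)
      inv := MonoidAlgebra.single g⁻¹ ((ε⁻¹ : ℤˣ) : ℤ)
      val_inv := by
        rw [MonoidAlgebra.single_mul_single, mul_inv_cancel, Units.mul_inv]; rfl
      inv_val := by
        rw [MonoidAlgebra.single_mul_single, inv_mul_cancel, Units.inv_mul]; rfl }
  have hu : u ∈ TU Γ := ⟨g, ε, rfl⟩
  have h2 : Units.map (stm (Fin (m + 1))) A
      = Units.map (dgm (Sum.inr (0 : Fin (m + 1)))) u * C := by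
    apply Units.ext
    rw [Units.val_mul]
    change fromBlocks A.val 0 0 1 = dgm (Sum.inr (0 : Fin (m + 1))) (u : MonoidAlgebra ℤ Γ) * C.val
    rw [h1, dgm_apply]
    congr 2
    funext i
    by_cases h : i = Sum.inr (0 : Fin (m + 1))
    · subst h; simp [u]
    · rw [if_neg h, Function.update_of_ne h]; rfl
  rw [h2]
  exact mul_mem (dgm_mem_HH _ _ u hu) (commutator_le_HH _ hC)

/-- rows dominated by one coefficient -/
theorem TT_mono (A : (Matrix κ κ (MonoidAlgebra ℤ Γ))ˣ) (h : DominantUpToMonomial A.val) :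
    TT (TU Γ) A := by
  classical
  obtain ⟨σ, h⟩ := h
  choose g hg using h
  -- signs
  have hs : ∀ i, ∃ ε : ℤ, ε * ε = 1 ∧ ε * (A.val i (σ i)).coeff (g i)
      = |(A.val i (σ i)).coeff (g i)| := by
    intro i
    rcases abs_choice ((A.val i (σ i)).coeff (g i)) with h1 | h1
    · exact ⟨1, by norm_num, by rw [h1, one_mul]⟩
    · exact ⟨-1, by norm_num, by rw [h1]; ring⟩
  choose ε hε1 hε2 using hs
  let D := dgs (fun i => (g i)⁻¹) ε hε1
  let P := pu (R := MonoidAlgebra ℤ Γ) σ.symm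
  have hP : ∀ (X : Matrix κ κ (MonoidAlgebra ℤ Γ)) i j, (X * P.val) i j = X i (σ j) := by
    intro X i j
    rw [Matrix.mul_apply, Finset.sum_eq_single (σ j)]
    · change X i (σ j) * (1 : Matrix κ κ (MonoidAlgebra ℤ Γ)) (σ.symm (σ j)) j = _
      rw [Equiv.symm_apply_apply, Matrix.one_apply_eq, mul_one]
    · intro k _ hk
      change X i k * (1 : Matrix κ κ (MonoidAlgebra ℤ Γ)) (σ.symm k) j = _
      rw [Matrix.one_apply_ne, mul_zero]
      intro h1
      exact hk (by rw [← h1, Equiv.apply_symm_apply])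
    · simp
  have hD : ∀ i j, (D * A * P).val i j
      = MonoidAlgebra.single (g i)⁻¹ (ε i) * A.val i (σ j) := by
    intro i j
    rw [Units.val_mul, hP, Units.val_mul]
    change (Matrix.diagonal (fun i => MonoidAlgebra.single (g i)⁻¹ (ε i)) * A.val) i (σ j) = _
    rw [Matrix.diagonal_mul]
  have h1 : DDom (D * A * P).val := by
    intro i
    have e1 : ((D * A * P).val i i).coeff 1 = |(A.val i (σ i)).coeff (g i)| := by
      rw [hD, MonoidAlgebra.coeff_single_mul_apply, ← hε2]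
      simp
    rw [e1]
    refine le_trans ?_ (hg i)
    rw [← Equiv.sum_comp σ (fun j => (norm1 (A.val i j) : ℤ))]
    refine Finset.sum_le_sum fun j _ => ?_
    rw [hD]
    have e2 := l1_single_mul (g i)⁻¹ (ε i) (A.val i (σ j))
    have e3 : (ε i).natAbs = 1 := by
      have := congrArg Int.natAbs (hε1 i)
      rw [Int.natAbs_mul] at this
      exact Nat.eq_one_of_mul_eq_one_left this
    rw [e3, one_mul] at e2
    exact_mod_cast e2
  have h2 := TT_rowdom (TU Γ) _ κ rfl (D * A * P) h1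
  have h3 : A = D⁻¹ * (D * A * P) * P⁻¹ := by group
  rw [h3]
  exact TT_mul _ _ _ (TT_mul _ _ _ (TT_inv _ _ (TT_of_mem _ _ (dgs_mem _ _ _))) h2)
    (TT_inv _ _ (TT_pu _))

end aux

open TH57.Thr TH6.LF TH6.CX Pool.Agent.Y75.Th Pool.Agent.R719.DD in
/-- Let `Γ` be any group and `A` an invertible matrix over `ℤΓ`.

(1) If `A` is weakly diagonally dominant by rows or by columns (with the factor `1`), `A` is zero in
`K₁(ℤΓ)`. (2) If, up to a permutation, each row of `A` (or each column of `A`) is dominated by one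
coefficient, `A` is zero in `Wh(Γ)`.

(3) The factor `1` is sharp: for every real `c > 1` and every invertible `A` there are invertible
matrices `P` and `Q`, zero in `K₁(ℤΓ)`, such that `P diag(A, 1) Q` is diagonally dominant by rows and
by columns with the factor `c`. (4) Hence, for every `c > 1`, `Wh(Γ)` is zero exactly if all
invertible matrices over `ℤΓ` that are diagonally dominant by rows and by columns with the factor `c`
are zero in `Wh(Γ)`. -/
theorem result (Γ : Type) [Group Γ] :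
    (∀ (κ : Type) [Fintype κ] [DecidableEq κ] (A : (Matrix κ κ (MonoidAlgebra ℤ Γ))ˣ),
      (Dominant 1 A.val ∨ Dominant 1 (adjoint A.val) → ZeroInK1 A.val) ∧
      (DominantUpToMonomial A.val ∨ DominantUpToMonomial (adjoint A.val) → ZeroInWh A.val)) ∧
    ∀ c : ℝ, 1 < c →
      (∀ (κ : Type) [Fintype κ] [DecidableEq κ] (A : (Matrix κ κ (MonoidAlgebra ℤ Γ))ˣ),
        ∃ (N : ℕ) (P Q : (Matrix (κ ⊕ κ × Fin N) (κ ⊕ κ × Fin N) (MonoidAlgebra ℤ Γ))ˣ),
          ZeroInK1 P.val ∧ ZeroInK1 Q.val ∧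
          Dominant c (P.val * fromBlocks A.val 0 0 1 * Q.val) ∧
          Dominant c (adjoint (P.val * fromBlocks A.val 0 0 1 * Q.val))) ∧
      ((∀ (κ : Type) [Fintype κ] [DecidableEq κ] (A : (Matrix κ κ (MonoidAlgebra ℤ Γ))ˣ),
          ZeroInWh A.val) ↔
        ∀ (κ : Type) [Fintype κ] [DecidableEq κ] (A : (Matrix κ κ (MonoidAlgebra ℤ Γ))ˣ),
          Dominant c A.val → Dominant c (adjoint A.val) → ZeroInWh A.val) := by
  classical
  have key : ∀ c : ℝ, 1 < c → ∀ (κ : Type) [Fintype κ] [DecidableEq κ]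
      (A : (Matrix κ κ (MonoidAlgebra ℤ Γ))ˣ), ∃ (N : ℕ)
      (P Q : (Matrix (κ ⊕ κ × Fin N) (κ ⊕ κ × Fin N) (MonoidAlgebra ℤ Γ))ˣ),
          (∀ U : Subgroup (MonoidAlgebra ℤ Γ)ˣ, TT U P ∧ TT U Q) ∧
          Dominant c (P.val * fromBlocks A.val 0 0 1 * Q.val) ∧
          Dominant c (adjoint (P.val * fromBlocks A.val 0 0 1 * Q.val)) := by
    intro c hc κ _ _ A
    obtain ⟨N₁, h1⟩ := dom_stab c hc A.val
    obtain ⟨N₂, h2⟩ := dom_stab c hc (adj A.val)
    refine ⟨max N₁ N₂, pm Γ κ (max N₁ N₂), adx (pm Γ κ (max N₁ N₂)), fun U => ?_, ?_, ?_⟩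
    · have h3 : ∀ N : ℕ, TT (⊥ : Subgroup (MonoidAlgebra ℤ Γ)ˣ) (pm Γ κ N) := TT_pm' ⊥
      refine ⟨TT_pm' U _, ?_⟩
      have h4 := TT_adU_bot _ (TT_inv _ _ (h3 (max N₁ N₂)))
      have h5 : adU (κ ⊕ κ × Fin (max N₁ N₂)) (pm Γ κ (max N₁ N₂))⁻¹
          = adx (pm Γ κ (max N₁ N₂)) := by
        apply Units.ext
        rw [adU_val, inv_inv]; rfl
      rw [h5] at h4
      obtain ⟨μ, i1, i2, h6⟩ := h4
      exact ⟨μ, i1, i2, commutator_le_HH U (by rw [HH_bot] at h6; exact h6)⟩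
    · have h3 := h1 _ (le_max_left N₁ N₂)
      rw [← pm_mul] at h3
      exact h3
    · have h3 := h2 _ (le_max_right N₁ N₂)
      have h4 : adj ((pm Γ κ (max N₁ N₂)).val * fromBlocks A.val 0 0 1 *
          adj (pm Γ κ (max N₁ N₂)).val)
          = (pm Γ κ (max N₁ N₂)).val * fromBlocks (adj A.val) 0 0 1 *
            adj (pm Γ κ (max N₁ N₂)).val := by
        rw [adj_mul, adj_mul, adj_adj, adj_fromBlocks, adj_zero, adj_zero, adj_one,
          Matrix.mul_assoc]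
      rw [← pm_mul, ← h4] at h3
      exact h3
  refine ⟨fun κ _ _ A => ⟨?_, ?_⟩, fun c hc => ⟨?_, ?_⟩⟩
  · rintro (h | h)
    · exact k1_of_TT (TT_rowdom ⊥ _ κ rfl A (dd_of_dominant h))
    · have h1 : DDom (adx A).val := dd_of_dominant h
      have h2 := TT_adU_bot _ (TT_inv _ _ (TT_rowdom ⊥ _ κ rfl (adx A) h1))
      rw [adU_adx] at h2
      exact k1_of_TT h2
  · rintro (h | h)
    · exact zero_of_TT (TT_mono A h)
    · have h1 : TT (TU Γ) (adx A) := TT_mono (adx A) h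
      have h2 := TT_adU _ (TT_inv _ _ h1)
      rw [adU_adx] at h2
      exact zero_of_TT h2
  · intro κ _ _ A
    obtain ⟨N, P, Q, h1, h2, h3⟩ := key c hc κ A
    exact ⟨N, P, Q, k1_of_TT (h1 ⊥).1, k1_of_TT (h1 ⊥).2, h2, h3⟩
  · refine ⟨fun h κ _ _ A _ _ => h κ A, fun h κ _ _ A => ?_⟩
    obtain ⟨N, P, Q, h1, h2, h3⟩ := key c hc κ A
    have h4 := TT_of_zero (h _ (P * Units.map (stm (κ × Fin N)) A * Q) h2 h3)
    have h5 : Units.map (stm (κ × Fin N)) A
        = P⁻¹ * (P * Units.map (stm (κ × Fin N)) A * Q) * Q⁻¹ := by group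
    have h6 : TT (TU Γ) (Units.map (stm (κ × Fin N)) A) := by
      rw [h5]
      exact TT_mul _ _ _ (TT_mul _ _ _ (TT_inv _ _ (h1 _).1) h4) (TT_inv _ _ (h1 _).2)
    exact zero_of_TT (TT_unst _ _ h6)

end Pool.Agent.R719.Old.DiagonalDominance
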